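import Pool.Agent.R745.CDX.Defs

/-! CDX-XCLO: in a maximum pair a pure letter may be replaced by any other pure letter. -/

namespace R745CDX

open Finset H825CD

theorem tX_clo : X_clo := by
  intro ι _ _ Q S δ M A B h j hj a ha haj u hu
  by_contra hcon
  have hBpos : 0 < B.card := by
    have h1 := h.big
    rcases Nat.eq_zero_or_pos B.card with h0 | h0
    · rw [h0, mul_zero] at h1
      exact absurd h1 (Nat.not_lt_zero _)
    · exact h0
  have hnB : ∀ c ∈ pur A B j, ∀ b ∈ B, c ≠ b j := by
    intro c hc b hb he
    unfold pur at hc
    have h1 := (Finset.mem_sdiff.1 hc).2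
    apply h1
    unfold used
    rw [he]
    exact Finset.mem_image_of_mem (fun a => a j) hb
  have hdist : ∀ b ∈ B, hammingDist (Function.update a j u) b = hammingDist a b := by
    intro b hb
    unfold hammingDist
    congr 1
    ext i
    simp only [Finset.mem_filter, Finset.mem_univ, true_and]
    by_cases hij : i = j
    · subst hij
      rw [Function.update_self]
      exact ⟨fun _ => hnB _ haj b hb, fun _ => hnB u hu b hb⟩
    · rw [Function.update_of_ne hij]
  have hmax := h.max (insert (Function.update a j u) A) B ?_ h.supB ?_
  · rw [Finset.card_insert_of_notMem hcon] at hmax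
    have h2 := Nat.le_of_mul_le_mul_right hmax hBpos
    omega
  · intro c hc i hi
    rcases Finset.mem_insert.1 hc with rfl | hc
    · have hij : i ≠ j := by
        intro e
        rw [e] at hi
        exact hi hj
      rw [Function.update_of_ne hij]
      exact h.supA a ha i hi
    · exact h.supA c hc i hi
  · intro c hc b hb
    rcases Finset.mem_insert.1 hc with rfl | hc
    · rw [hdist b hb]
      exact h.dist a ha b hb
    · exact h.dist c hc b hb

end R745CDX
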